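import Pool.Agent.Helper63.RG.UNIT1

/-!
# Module UNIT, part 2: halving, the quartic, the theorem
-/

namespace Pool.Agent.Helper63.RG

open Polynomial Pool.Agent.Helper67.RG WeierstrassCurve

/-- halving a point -/
theorem UNIT_half (a b : ℂ) (h : W0.Nonsingular a b) :
    ∃ (x y : ℂ) (hS : W0.Nonsingular x y), y ≠ 0 ∧
      2 • (Affine.Point.some x y hS : W0.Point) = Affine.Point.some a b h := by
  have hab := UNIT_nonsing a b h
  obtain ⟨r1, hr1⟩ := IsAlgClosed.exists_pow_nat_eq a (n := 2) (by norm_num)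
  obtain ⟨r2, hr2⟩ := IsAlgClosed.exists_pow_nat_eq (a - 1) (n := 2) (by norm_num)
  obtain ⟨r3', hr3'⟩ := IsAlgClosed.exists_pow_nat_eq (a + 1) (n := 2) (by norm_num)
  have hsq : (r1 * r2 * r3') ^ 2 = b ^ 2 := by
    rw [mul_pow, mul_pow, hr1, hr2, hr3', hab]; ring
  obtain ⟨r3, hr3, hb⟩ : ∃ r3 : ℂ, r3 ^ 2 = a + 1 ∧ r1 * r2 * r3 = b := by
    rcases sq_eq_sq_iff_eq_or_eq_neg.mp hsq with h1 | h1
    · exact ⟨r3', hr3', h1⟩
    · exact ⟨-r3', by rw [neg_sq, hr3'], by rw [mul_neg, h1, neg_neg]⟩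
  set x : ℂ := a + r1 * r2 + r1 * r3 + r2 * r3 with hx
  set y : ℂ := (r1 + r2) * (r1 + r3) * (r2 + r3) with hy
  have h12 : r1 + r2 ≠ 0 := by
    intro h0
    have h1 : r1 = -r2 := by linear_combination h0
    have h2 : (1 : ℂ) = 0 := by
      have : r1 ^ 2 = r2 ^ 2 := by rw [h1, neg_sq]
      linear_combination this - hr1 + hr2
    exact one_ne_zero h2
  have h13 : r1 + r3 ≠ 0 := by
    intro h0
    have h1 : r1 = -r3 := by linear_combination h0
    have h2 : (1 : ℂ) = 0 := by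
      have : r1 ^ 2 = r3 ^ 2 := by rw [h1, neg_sq]
      linear_combination -this + hr1 - hr3
    exact one_ne_zero h2
  have h23 : r2 + r3 ≠ 0 := by
    intro h0
    have h1 : r2 = -r3 := by linear_combination h0
    have h2 : (2 : ℂ) = 0 := by
      have : r2 ^ 2 = r3 ^ 2 := by rw [h1, neg_sq]
      linear_combination -this + hr2 - hr3
    exact two_ne_zero h2
  have hy0 : y ≠ 0 := mul_ne_zero (mul_ne_zero h12 h13) h23
  have e1 : x = (r1 + r2) * (r1 + r3) := by rw [hx]; linear_combination -hr1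
  have e2 : x - 1 = (r1 + r2) * (r2 + r3) := by rw [hx]; linear_combination -hr2
  have e3 : x + 1 = (r1 + r3) * (r2 + r3) := by rw [hx]; linear_combination -hr3
  have hxy : y ^ 2 = x ^ 3 - x := by
    have : x ^ 3 - x = x * (x - 1) * (x + 1) := by ring
    rw [this, e2, e3, e1, hy]
    ring
  have hns : W0.Nonsingular x y := by
    rw [Affine.nonsingular_iff]
    constructor
    · rw [Affine.equation_iff]
      simp only [W0]
      linear_combination hxy
    · right
      simp only [W0]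
      intro h0
      apply hy0
      have : 2 * y = 0 := by linear_combination h0
      simpa using this
  have hneg : y ≠ W0.negY x y := by
    simp only [Affine.negY, W0]
    intro h0
    apply hy0
    have : 2 * y = 0 := by linear_combination h0
    simpa using this
  refine ⟨x, y, hns, hy0, ?_⟩
  rw [two_nsmul, Affine.Point.add_self_of_Y_ne hneg]
  have hslope : W0.slope x x y y = r1 + r2 + r3 := by
    rw [Affine.slope_of_Y_ne rfl hneg]
    simp only [Affine.negY, W0]
    rw [div_eq_iff (by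
      intro h0
      apply hy0
      have : 2 * y = 0 := by linear_combination h0
      simpa using this)]
    have h3 : 3 * x ^ 2 - 1 = x * (x - 1) + x * (x + 1) + (x - 1) * (x + 1) := by ring
    have h4 : 3 * x ^ 2 + 2 * 0 * x + -1 - 0 * y = 3 * x ^ 2 - 1 := by ring
    rw [h4, h3, e1]
    rw [← e1, e2, e3, e1, hy]
    ring
  have hX : W0.addX x x (W0.slope x x y y) = a := by
    rw [hslope]
    simp only [Affine.addX, W0]
    rw [hx]
    linear_combination hr1 + hr2 + hr3
  have hY : W0.addY x x y (W0.slope x x y y) = b := by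
    rw [Affine.addY, Affine.negAddY, hX, hslope]
    simp only [Affine.negY, W0]
    rw [← hb, hy, hx]
    ring
  simp only [hX, hY]

/-- the quartic -/
noncomputable def UNIT_f (x : ℂ) : ℂ[X] :=
  X * (X + C x⁻¹) * (X + C (x - 1)⁻¹) * (X + C (x + 1)⁻¹)

theorem UNIT_f_monic (x : ℂ) : (UNIT_f x).Monic := by
  unfold UNIT_f
  exact (((monic_X).mul (monic_X_add_C _)).mul (monic_X_add_C _)).mul (monic_X_add_C _)

theorem UNIT_f_deg (x : ℂ) : (UNIT_f x).natDegree = 4 := by
  unfold UNIT_f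
  rw [(((monic_X).mul (monic_X_add_C _)).mul (monic_X_add_C _)).natDegree_mul (monic_X_add_C _),
    ((monic_X).mul (monic_X_add_C _)).natDegree_mul (monic_X_add_C _),
    (monic_X).natDegree_mul (monic_X_add_C _), natDegree_X, natDegree_X_add_C, natDegree_X_add_C,
    natDegree_X_add_C]

theorem UNIT_f_sf (x : ℂ) (h0 : x ≠ 0) (h1 : x - 1 ≠ 0) (h2 : x + 1 ≠ 0) :
    Squarefree (UNIT_f x) := by
  have hsep : (UNIT_f x).Separable := by
    unfold UNIT_f
    have hX : (X : ℂ[X]) = X - C 0 := by simp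
    have hc : ∀ a b : ℂ, a ≠ b → IsCoprime (X - C a) (X - C b) := fun a b hab =>
      isCoprime_X_sub_C_of_isUnit_sub (sub_ne_zero.mpr hab).isUnit
    have hp : ∀ a : ℂ, (X + C a : ℂ[X]) = X - C (-a) := by
      intro a; rw [C_neg, sub_neg_eq_add]
    rw [hp, hp, hp]
    conv => rw [show (X * (X - C (-x⁻¹)) * (X - C (-(x - 1)⁻¹)) * (X - C (-(x + 1)⁻¹)) : ℂ[X]) =
      (X - C 0) * (X - C (-x⁻¹)) * (X - C (-(x - 1)⁻¹)) * (X - C (-(x + 1)⁻¹)) by rw [← hX]]
    have n01 : (0 : ℂ) ≠ -x⁻¹ := fun h => by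
      have := neg_eq_zero.mp h.symm
      exact h0 (inv_eq_zero.mp this)
    have n02 : (0 : ℂ) ≠ -(x - 1)⁻¹ := fun h => by
      have := neg_eq_zero.mp h.symm
      exact h1 (inv_eq_zero.mp this)
    have n03 : (0 : ℂ) ≠ -(x + 1)⁻¹ := fun h => by
      have := neg_eq_zero.mp h.symm
      exact h2 (inv_eq_zero.mp this)
    have n12 : -x⁻¹ ≠ -(x - 1)⁻¹ := fun h => by
      have := inv_injective (neg_injective h)
      have h3 : (1 : ℂ) = 0 := by linear_combination this
      exact one_ne_zero h3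
    have n13 : -x⁻¹ ≠ -(x + 1)⁻¹ := fun h => by
      have := inv_injective (neg_injective h)
      have h3 : (1 : ℂ) = 0 := by linear_combination -this
      exact one_ne_zero h3
    have n23 : -(x - 1)⁻¹ ≠ -(x + 1)⁻¹ := fun h => by
      have := inv_injective (neg_injective h)
      have h3 : (2 : ℂ) = 0 := by linear_combination -this
      exact two_ne_zero h3
    refine Separable.mul (Separable.mul (Separable.mul (separable_X_sub_C) (separable_X_sub_C)
      (hc _ _ n01)) (separable_X_sub_C) ?_) (separable_X_sub_C) ?_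
    · exact IsCoprime.mul_left (hc _ _ n02) (hc _ _ n12)
    · exact IsCoprime.mul_left (IsCoprime.mul_left (hc _ _ n03) (hc _ _ n13)) (hc _ _ n23)
  exact hsep.squarefree

theorem UNIT_reflect (x y : ℂ) (hxy : y ^ 2 = x ^ 3 - x) (h0 : x ≠ 0) (h1 : x - 1 ≠ 0)
    (h2 : x + 1 ≠ 0) : reflect 4 (taylor x UNIT_F) = C (y ^ 2) * UNIT_f x := by
  have ht : taylor x UNIT_F = C 1 * X ^ 3 + C (3 * x) * X ^ 2 + C (3 * x ^ 2 - 1) * X ^ 1 +
      C (x ^ 3 - x) * X ^ 0 := by
    unfold UNIT_F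
    rw [map_sub, taylor_X_pow, taylor_X]
    simp only [C_mul, C_sub, C_pow, C_1]
    have h3 : (C 3 : ℂ[X]) = 3 := rfl
    rw [h3]
    ring
  rw [ht, reflect_add, reflect_add, reflect_add, reflect_C_mul_X_pow, reflect_C_mul_X_pow,
    reflect_C_mul_X_pow, reflect_C_mul_X_pow, revAt_le (by norm_num), revAt_le (by norm_num),
    revAt_le (by norm_num), revAt_le (by norm_num)]
  have hf : C (y ^ 2) * UNIT_f x = X * (1 + C x * X) * (1 + C (x - 1) * X) * (1 + C (x + 1) * X) := by
    have hy : y ^ 2 = x * (x - 1) * (x + 1) := by rw [hxy]; ring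
    have e : ∀ a : ℂ, a ≠ 0 → C a * (X + C a⁻¹) = (1 + C a * X : ℂ[X]) := by
      intro a ha
      rw [mul_add, ← C_mul, mul_inv_cancel₀ ha, C_1, add_comm]
    rw [hy, ← e x h0, ← e (x - 1) h1, ← e (x + 1) h2, UNIT_f, C_mul, C_mul]
    ring
  rw [hf]
  have h3 : (C 3 : ℂ[X]) = 3 := rfl
  simp only [C_mul, C_sub, C_add, C_pow, C_1, h3]
  ring

/-- from `p² - q² F = c (X - x)^(2D)` to the Pell equation -/
theorem UNIT_to (x y : ℂ) (hxy : y ^ 2 = x ^ 3 - x) (h0 : x ≠ 0) (h1 : x - 1 ≠ 0)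
    (h2 : x + 1 ≠ 0) (p q : ℂ[X]) (c : ℂ) (D : ℕ) (hD : 2 ≤ D) (hp : p.natDegree ≤ D)
    (hq : q.natDegree ≤ D - 2) (h : p ^ 2 - q ^ 2 * UNIT_F = C c * (X - C x) ^ (2 * D)) :
    reflect D (taylor x p) ^ 2 - UNIT_f x * (C y * reflect (D - 2) (taylor x q)) ^ 2 = C c := by
  have hF : UNIT_F.natDegree ≤ 4 := by
    unfold UNIT_F
    refine (natDegree_sub_le _ _).trans ?_
    simp
  have ht := congrArg (taylor x) h
  rw [map_sub, taylor_mul, taylor_mul, taylor_pow, taylor_pow, taylor_pow, taylor_C, map_sub,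
    taylor_X, taylor_C, add_sub_cancel_right] at ht
  have hr := congrArg (reflect (2 * D)) ht
  rw [reflect_sub, reflect_C_mul_X_pow, revAt_le le_rfl, Nat.sub_self, pow_zero, mul_one] at hr
  have hp' : (taylor x p).natDegree ≤ D := by rw [natDegree_taylor]; exact hp
  have hq' : (taylor x q).natDegree ≤ D - 2 := by rw [natDegree_taylor]; exact hq
  have hF' : (taylor x UNIT_F).natDegree ≤ 4 := by rw [natDegree_taylor]; exact hF
  have r1 : reflect (2 * D) (taylor x p ^ 2) = reflect D (taylor x p) ^ 2 := by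
    rw [sq, two_mul, reflect_mul _ _ hp' hp', sq]
  have r2 : reflect (2 * D) (taylor x q ^ 2 * taylor x UNIT_F) =
      reflect (D - 2) (taylor x q) ^ 2 * reflect 4 (taylor x UNIT_F) := by
    have e : 2 * D = (D - 2) + (D - 2) + 4 := by omega
    rw [e, reflect_mul _ _ _ hF', sq, reflect_mul _ _ hq' hq', sq]
    rw [sq]
    exact (natDegree_mul_le).trans (add_le_add hq' hq')
  rw [r1, r2, UNIT_reflect x y hxy h0 h1 h2] at hr
  rw [← hr, C_pow]
  ring

theorem UNIT_from (x y : ℂ) (hy : y ≠ 0) (hxy : y ^ 2 = x ^ 3 - x) (h0 : x ≠ 0) (h1 : x - 1 ≠ 0)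
    (h2 : x + 1 ≠ 0) (a b : ℂ[X]) (c : ℂ) (D : ℕ) (hD : 2 ≤ D) (ha : a.natDegree ≤ D)
    (hb : b.natDegree ≤ D - 2) (h : a ^ 2 - UNIT_f x * b ^ 2 = C c) :
    taylor (-x) (reflect D a) ^ 2 - (C y⁻¹ * taylor (-x) (reflect (D - 2) b)) ^ 2 * UNIT_F =
      C c * (X - C x) ^ (2 * D) := by
  have hr := congrArg (reflect (2 * D)) h
  have hf : reflect 4 (UNIT_f x) = C (y ^ 2)⁻¹ * taylor x UNIT_F := by
    have h3 := congrArg (reflect 4) (UNIT_reflect x y hxy h0 h1 h2)
    rw [reflect_reflect, reflect_C_mul] at h3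
    rw [h3, ← mul_assoc, ← C_mul, inv_mul_cancel₀ (pow_ne_zero 2 hy), C_1, one_mul]
  have r1 : reflect (2 * D) (a ^ 2) = reflect D a ^ 2 := by
    rw [sq, two_mul, reflect_mul _ _ ha ha, sq]
  have r2 : reflect (2 * D) (UNIT_f x * b ^ 2) =
      reflect 4 (UNIT_f x) * reflect (D - 2) b ^ 2 := by
    have e : 2 * D = 4 + ((D - 2) + (D - 2)) := by omega
    rw [e, reflect_mul _ _ (UNIT_f_deg x).le, sq, reflect_mul _ _ hb hb, sq]
    rw [sq]
    exact (natDegree_mul_le).trans (add_le_add hb hb)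
  rw [reflect_sub, r1, r2, hf, reflect_C] at hr
  have ht := congrArg (taylor (-x)) hr
  rw [map_sub, taylor_mul, taylor_mul, taylor_mul, taylor_pow, taylor_pow, taylor_pow, taylor_C,
    taylor_C, taylor_taylor, taylor_X, neg_add_cancel, taylor_zero, C_neg, ← sub_eq_add_neg] at ht
  rw [← ht, mul_pow, ← C_pow, inv_pow]
  ring

theorem st_UNIT : ST_UNIT := by
  intro N hN hT
  obtain ⟨T, hT⟩ := hT
  have hT0 : T ≠ 0 := by
    rintro rfl
    rw [addOrderOf_zero] at hT
    omega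
  obtain ⟨a0, b0, h0, rfl⟩ : ∃ a0 b0 h0, T = Affine.Point.some a0 b0 h0 := by
    rcases T with _ | ⟨a0, b0, h0⟩
    · exact absurd rfl hT0
    · exact ⟨a0, b0, h0, rfl⟩
  obtain ⟨x, y, hS, hy, hST⟩ := UNIT_half a0 b0 h0
  have hxy := UNIT_nonsing x y hS
  have hprod : x * (x - 1) * (x + 1) ≠ 0 := by
    have : x * (x - 1) * (x + 1) = y ^ 2 := by rw [hxy]; ring
    rw [this]
    exact pow_ne_zero 2 hy
  have hx0 : x ≠ 0 := fun h => hprod (by rw [h]; ring)
  have hx1 : x - 1 ≠ 0 := fun h => hprod (by rw [h]; ring)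
  have hx2 : x + 1 ≠ 0 := fun h => hprod (by rw [h]; ring)
  -- existence
  have hNT : (2 * N) • (Affine.Point.some x y hS : W0.Point) = 0 := by
    rw [mul_comm, mul_nsmul', hST, ← hT]
    exact addOrderOf_nsmul_eq_zero _
  obtain ⟨g, hg0, hg⟩ := (UNIT_torsion x y hS (2 * N)).mp hNT
  obtain ⟨p, q, rfl⟩ := UNIT_el_surj g
  obtain ⟨hpx, c, hc, hpq⟩ := UNIT_norm x y hS hy p q (2 * N) (by omega) hg
  have hFdeg : UNIT_F.natDegree = 3 := by
    unfold UNIT_F
    rw [natDegree_sub_eq_left_of_natDegree_lt] <;> simp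
  have hF0 : UNIT_F ≠ 0 := by
    intro h
    rw [h] at hFdeg
    simp at hFdeg
  have hRdeg : (C c * (X - C x) ^ (2 * N)).natDegree = 2 * N := by
    rw [natDegree_C_mul hc, natDegree_pow, natDegree_X_sub_C, mul_one]
  have hqdeg : q.natDegree ≤ N - 2 := by
    by_contra hlt
    have hq0 : q ≠ 0 := by
      rintro rfl
      simp at hlt
    have h3 : (q ^ 2 * UNIT_F).natDegree = 2 * q.natDegree + 3 := by
      rw [natDegree_mul (pow_ne_zero 2 hq0) hF0, natDegree_pow, hFdeg]
    have h4 : p ^ 2 = q ^ 2 * UNIT_F + C c * (X - C x) ^ (2 * N) := by rw [← hpq]; ring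
    have h5 : (p ^ 2).natDegree = 2 * q.natDegree + 3 := by
      rw [h4, natDegree_add_eq_left_of_natDegree_lt, h3]
      rw [h3, hRdeg]
      omega
    rw [natDegree_pow] at h5
    omega
  have hpdeg : p.natDegree = N := by
    have h3 : (q ^ 2 * UNIT_F).natDegree < 2 * N := by
      refine (natDegree_mul_le).trans_lt ?_
      rw [natDegree_pow, hFdeg]
      omega
    have h4 : p ^ 2 = q ^ 2 * UNIT_F + C c * (X - C x) ^ (2 * N) := by rw [← hpq]; ring
    have h5 : (p ^ 2).natDegree = 2 * N := by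
      rw [h4, natDegree_add_eq_right_of_natDegree_lt, hRdeg]
      rw [hRdeg]
      exact h3
    rw [natDegree_pow] at h5
    omega
  obtain ⟨s, hs⟩ := IsAlgClosed.exists_pow_nat_eq c⁻¹ (n := 2) (by norm_num)
  have hs0 : s ≠ 0 := by
    rintro rfl
    rw [zero_pow (by norm_num)] at hs
    exact inv_ne_zero hc hs.symm
  have hmain := UNIT_to x y hxy hx0 hx1 hx2 p q c N (by omega) hpdeg.le hqdeg hpq
  refine ⟨UNIT_f x, C s * reflect N (taylor x p), C s * (C y * reflect (N - 2) (taylor x q)),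
    UNIT_f_monic x, UNIT_f_deg x, UNIT_f_sf x hx0 hx1 hx2, ?_, ?_, ?_⟩
  · have h3 : (C s * reflect N (taylor x p)) ^ 2 -
        UNIT_f x * (C s * (C y * reflect (N - 2) (taylor x q))) ^ 2 = C (s ^ 2) * C c := by
      rw [← hmain, C_pow]
      ring
    rw [h3, hs, ← C_mul, inv_mul_cancel₀ hc, C_1]
  · rw [natDegree_C_mul hs0]
    apply le_antisymm
    · refine (natDegree_reflect_le).trans ?_
      rw [natDegree_taylor, hpdeg, max_self]
    · apply le_natDegree_of_ne_zero
      rw [coeff_reflect, revAt_le le_rfl, Nat.sub_self, taylor_coeff_zero]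
      exact hpx
  -- minimality
  · intro a' b' c' hc' hab hb'
    have hb2 : (UNIT_f x * b' ^ 2).natDegree = 4 + 2 * b'.natDegree := by
      rw [(UNIT_f_monic x).natDegree_mul' (pow_ne_zero 2 hb'), UNIT_f_deg, natDegree_pow]
    have ha2 : (a' ^ 2).natDegree = 4 + 2 * b'.natDegree := by
      have h3 : a' ^ 2 = UNIT_f x * b' ^ 2 + C c' := by rw [← hab]; ring
      rw [h3, natDegree_add_C, hb2]
    rw [natDegree_pow] at ha2
    set D := a'.natDegree with hDdef
    have hD : b'.natDegree + 2 = D := by omega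
    have hD2 : 2 ≤ D := by omega
    have hfr := UNIT_from x y hy hxy hx0 hx1 hx2 a' b' c' D hD2 le_rfl (by omega) hab
    set P := taylor (-x) (reflect D a') with hP
    set Q := C y⁻¹ * taylor (-x) (reflect (D - 2) b') with hQ
    have hPx : P.eval x ≠ 0 := by
      rw [hP, taylor_eval, add_neg_cancel, ← coeff_zero_eq_eval_zero, coeff_reflect,
        revAt_le (Nat.zero_le _), Nat.sub_zero, hDdef, coeff_natDegree, Ne, leadingCoeff_eq_zero]
      intro h3
      rw [h3] at hDdef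
      simp at hDdef
      omega
    clear_value P Q
    have hev : P.eval x ^ 2 = (Q.eval x * y) ^ 2 := by
      have h3 := congrArg (eval x) hfr
      rw [eval_sub, eval_mul, eval_pow, eval_pow, eval_mul, eval_pow, eval_sub, eval_X, eval_C,
        eval_C, sub_self, zero_pow (by omega), mul_zero] at h3
      have h4 : eval x UNIT_F = y ^ 2 := by
        rw [hxy]; simp [UNIT_F]
      rw [h4] at h3
      linear_combination h3
    have hfin : ∀ Q' : ℂ[X], P ^ 2 - Q' ^ 2 * UNIT_F = C c' * (X - C x) ^ (2 * D) →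
        P.eval x + Q'.eval x * y = 0 → N ≤ D := by
      intro Q' hQ' hM
      have h3 := UNIT_gen x y hS P Q' c' (2 * D) hc' hQ' hPx hM
      have h4 : UNIT_el P Q' ≠ 0 := by
        intro h5
        have h6 : UNIT_el P Q' = UNIT_el 0 0 := by rw [h5]; simp [UNIT_el]
        have h7 := (UNIT_el_inj h6).1
        rw [h7] at hPx
        simp at hPx
      have h5 := (UNIT_torsion x y hS (2 * D)).mpr ⟨_, h4, h3⟩
      rw [mul_comm, mul_nsmul', hST] at h5
      have h6 := addOrderOf_dvd_of_nsmul_eq_zero h5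
      rw [hT] at h6
      exact Nat.le_of_dvd (by omega) h6
    rcases sq_eq_sq_iff_eq_or_eq_neg.mp hev with h3 | h3
    · refine hfin (-Q) (by rw [neg_sq]; exact hfr) ?_
      rw [eval_neg, h3]
      ring
    · exact hfin Q hfr (by rw [h3]; ring)

end Pool.Agent.Helper63.RG
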