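import Pool.Agent.Helper67.RG.EStmts

/-!
# Module UNIT, part 1: ideals in the coordinate ring of `y² = x³ - x`
-/

namespace Pool.Agent.Helper63.RG

open Polynomial Pool.Agent.Helper67.RG WeierstrassCurve

open scoped Polynomial.Bivariate

/-- the element `p + q Y` of the coordinate ring -/
noncomputable def UNIT_el (p q : ℂ[X]) : W0.CoordinateRing :=
  p • (1 : W0.CoordinateRing) + q • Affine.CoordinateRing.mk W0 Y

/-- `x³ - x` -/
noncomputable def UNIT_F : ℂ[X] := X ^ 3 - X

theorem UNIT_el_mul (p q p' q' : ℂ[X]) :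
    UNIT_el p q * UNIT_el p' q' = UNIT_el (p * p' + q * q' * UNIT_F) (p * q' + q * p') := by
  have h1 := Affine.CoordinateRing.smul_basis_mul_Y (W' := W0) p q
  have h2 := Affine.CoordinateRing.smul_basis_mul_C (W' := W0) p' p q
  have h3 := Affine.CoordinateRing.smul_basis_mul_C (W' := W0) q' p q
  have hd : UNIT_el p q * UNIT_el p' q' =
      UNIT_el p q * Affine.CoordinateRing.mk W0 (C p') +
        (UNIT_el p q * Affine.CoordinateRing.mk W0 Y) * Affine.CoordinateRing.mk W0 (C q') := by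
    conv_lhs => rw [UNIT_el, UNIT_el]
    rw [UNIT_el, Affine.CoordinateRing.smul p' 1, Affine.CoordinateRing.smul q']
    ring
  rw [hd]
  unfold UNIT_el
  rw [h1, h2, Affine.CoordinateRing.smul_basis_mul_C]
  have hF : (X ^ 3 + C W0.a₂ * X ^ 2 + C W0.a₄ * X + C W0.a₆ : ℂ[X]) = UNIT_F := by
    simp only [W0, UNIT_F, C_0, C_neg, C_1]
    ring
  have hF' : (C W0.a₁ * X + C W0.a₃ : ℂ[X]) = 0 := by
    simp only [W0, C_0]
    ring
  rw [hF, hF']
  simp only [Affine.CoordinateRing.smul, map_mul, map_add, map_sub, map_zero]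
  ring

theorem UNIT_el_surj (z : W0.CoordinateRing) : ∃ p q : ℂ[X], z = UNIT_el p q := by
  obtain ⟨p, q, h⟩ := Affine.CoordinateRing.exists_smul_basis_eq z
  exact ⟨p, q, h.symm⟩

theorem UNIT_el_inj {p q p' q' : ℂ[X]} (h : UNIT_el p q = UNIT_el p' q') : p = p' ∧ q = q' := by
  have h1 : (p - p') • (1 : W0.CoordinateRing) + (q - q') • Affine.CoordinateRing.mk W0 Y = 0 := by
    rw [sub_smul, sub_smul]
    have : p • (1 : W0.CoordinateRing) + q • Affine.CoordinateRing.mk W0 Y =
      p' • (1 : W0.CoordinateRing) + q' • Affine.CoordinateRing.mk W0 Y := h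
    linear_combination this
  obtain ⟨h2, h3⟩ := Affine.CoordinateRing.smul_basis_eq_zero h1
  exact ⟨sub_eq_zero.mp h2, sub_eq_zero.mp h3⟩

theorem UNIT_XClass (x : ℂ) : Affine.CoordinateRing.XClass W0 x = UNIT_el (X - C x) 0 := by
  rw [UNIT_el, zero_smul, add_zero, Affine.CoordinateRing.smul, mul_one]
  rfl

theorem UNIT_YClass (y : ℂ) : Affine.CoordinateRing.YClass W0 (C y) = UNIT_el (-C y) 1 := by
  rw [UNIT_el, one_smul, Affine.CoordinateRing.smul, mul_one, Affine.CoordinateRing.YClass,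
    map_sub, map_neg, map_neg]
  ring

theorem UNIT_XClass_pow (x : ℂ) (n : ℕ) :
    Affine.CoordinateRing.XClass W0 x ^ n = UNIT_el ((X - C x) ^ n) 0 := by
  induction n with
  | zero => simp [UNIT_el]
  | succ n ih =>
    rw [pow_succ, ih, UNIT_XClass, UNIT_el_mul]
    simp [pow_succ]

/-- evaluation at a point of the curve -/
noncomputable def UNIT_ev (x y : ℂ) (h : y ^ 2 = x ^ 3 - x) : W0.CoordinateRing →+* ℂ :=
  AdjoinRoot.lift (evalRingHom x) y (by
    rw [Affine.polynomial]
    simp only [W0, eval₂_sub, eval₂_add, eval₂_mul, eval₂_pow, eval₂_X, eval₂_C, coe_evalRingHom,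
      eval_add, eval_mul, eval_pow, eval_X, eval_C]
    linear_combination h)

theorem UNIT_ev_el (x y : ℂ) (h : y ^ 2 = x ^ 3 - x) (p q : ℂ[X]) :
    UNIT_ev x y h (UNIT_el p q) = p.eval x + q.eval x * y := by
  rw [UNIT_el, Affine.CoordinateRing.smul, Affine.CoordinateRing.smul, mul_one, map_add, map_mul]
  unfold UNIT_ev
  simp only [Affine.CoordinateRing.mk, AdjoinRoot.lift_mk, eval₂_C, eval₂_X, coe_evalRingHom]

theorem UNIT_mem (x y : ℂ) (h : y ^ 2 = x ^ 3 - x) (z : W0.CoordinateRing) :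
    z ∈ Affine.CoordinateRing.XYIdeal W0 x (C y) ↔ UNIT_ev x y h z = 0 := by
  constructor
  · intro hz
    have h1 : Affine.CoordinateRing.XYIdeal W0 x (C y) ≤ RingHom.ker (UNIT_ev x y h) := by
      rw [Affine.CoordinateRing.XYIdeal, Ideal.span_le]
      rintro w hw
      rcases hw with rfl | hw
      · rw [SetLike.mem_coe, RingHom.mem_ker, UNIT_XClass, UNIT_ev_el]
        simp
      · rw [Set.mem_singleton_iff] at hw
        rw [hw, SetLike.mem_coe, RingHom.mem_ker, UNIT_YClass, UNIT_ev_el]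
        simp
    exact h1 hz
  · intro hz
    obtain ⟨p, q, rfl⟩ := UNIT_el_surj z
    rw [UNIT_ev_el] at hz
    obtain ⟨p', hp'⟩ : (X - C x) ∣ p - C (p.eval x) := by
      rw [dvd_iff_isRoot]; simp
    obtain ⟨q', hq'⟩ : (X - C x) ∣ q - C (q.eval x) := by
      rw [dvd_iff_isRoot]; simp
    have h1 : UNIT_el p q = UNIT_el p' q' * Affine.CoordinateRing.XClass W0 x +
        UNIT_el (C (q.eval x)) 0 * Affine.CoordinateRing.YClass W0 (C y) := by
      rw [UNIT_XClass, UNIT_YClass, UNIT_el_mul, UNIT_el_mul]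
      have hp1 : p = C (p.eval x) + (X - C x) * p' := by rw [← hp']; ring
      have hq1 : q = C (q.eval x) + (X - C x) * q' := by rw [← hq']; ring
      have h2 : UNIT_el (p' * (X - C x) + q' * 0 * UNIT_F) (p' * 0 + q' * (X - C x)) +
          UNIT_el (C (q.eval x) * -C y + 0 * 1 * UNIT_F) (C (q.eval x) * 1 + 0 * -C y) =
          UNIT_el (p' * (X - C x) - C (q.eval x) * C y) (q' * (X - C x) + C (q.eval x)) := by
        unfold UNIT_el
        rw [sub_smul, add_smul]
        simp only [add_smul, mul_zero, zero_mul, zero_smul, add_zero, mul_one, mul_neg, neg_smul,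
          zero_add]
        ring
      rw [h2]
      have h3 : p = p' * (X - C x) - C (q.eval x) * C y := by
        conv_lhs => rw [hp1]
        have : C (p.eval x) = -(C (q.eval x) * C y) := by
          rw [← C_mul, ← C_neg]
          congr 1
          linear_combination hz
        rw [this]
        ring
      have h4 : q = q' * (X - C x) + C (q.eval x) := by
        conv_lhs => rw [hq1]
        ring
      rw [← h3, ← h4]
    rw [h1, Affine.CoordinateRing.XYIdeal]
    exact Ideal.add_mem _ (Ideal.mul_mem_left _ _ (Ideal.subset_span (Or.inl rfl)))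
      (Ideal.mul_mem_left _ _ (Ideal.subset_span (Or.inr rfl)))

theorem UNIT_max (x y : ℂ) (h : y ^ 2 = x ^ 3 - x) :
    (Affine.CoordinateRing.XYIdeal W0 x (C y)).IsMaximal := by
  have h1 : Affine.CoordinateRing.XYIdeal W0 x (C y) = RingHom.ker (UNIT_ev x y h) := by
    ext z
    rw [UNIT_mem x y h, RingHom.mem_ker]
  rw [h1]
  apply RingHom.ker_isMaximal_of_surjective
  intro c
  refine ⟨UNIT_el (C c) 0, ?_⟩
  rw [UNIT_ev_el]
  simp

theorem UNIT_nonsing (x y : ℂ) (h : W0.Nonsingular x y) : y ^ 2 = x ^ 3 - x := by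
  have h1 := (Affine.equation_iff ..).mp h.left
  simp only [W0] at h1
  linear_combination h1

theorem UNIT_mul_conj (x y : ℂ) (h : W0.Nonsingular x y) :
    Affine.CoordinateRing.XYIdeal W0 x (C (-y)) * Affine.CoordinateRing.XYIdeal W0 x (C y) =
      Ideal.span {Affine.CoordinateRing.XClass W0 x} := by
  have h1 := Affine.CoordinateRing.XYIdeal_neg_mul h
  have h2 : W0.negY x y = -y := by
    simp [Affine.negY, W0]
  rw [h2] at h1
  exact h1

/-- conjugation -/
noncomputable def UNIT_conj : W0.CoordinateRing →+* W0.CoordinateRing :=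
  AdjoinRoot.lift (AdjoinRoot.of W0.polynomial) (-Affine.CoordinateRing.mk W0 Y) (by
    have h1 : Affine.CoordinateRing.mk W0 Y ^ 2 = Affine.CoordinateRing.mk W0 (C UNIT_F) := by
      have := UNIT_el_mul 0 1 0 1
      simp only [UNIT_el, Affine.CoordinateRing.smul, map_zero, map_one, zero_mul, one_mul, mul_one,
        zero_add, add_zero] at this
      rw [sq]
      exact this
    suffices hs : ∀ P : ℂ[X][Y], P = W0.polynomial → eval₂ (AdjoinRoot.of W0.polynomial)
        (-Affine.CoordinateRing.mk W0 Y) P = 0 from hs _ rfl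
    intro P hP
    have hP' : P = Y ^ 2 + C (C 0 * X + C 0) * Y - C (X ^ 3 + C 0 * X ^ 2 + C (-1) * X + C 0) := by
      rw [hP, Affine.polynomial]
      rfl
    rw [hP']
    simp only [eval₂_sub, eval₂_add, eval₂_mul, eval₂_pow, eval₂_X, eval₂_C]
    have h2 : (-Affine.CoordinateRing.mk W0 Y) ^ 2 = Affine.CoordinateRing.mk W0 (C UNIT_F) := by
      rw [neg_sq, h1]
    have h3 : (AdjoinRoot.of W0.polynomial) UNIT_F = Affine.CoordinateRing.mk W0 (C UNIT_F) := rfl
    have h4 : (AdjoinRoot.of W0.polynomial) (C 0 * X + C 0) = 0 := by simp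
    have h5 : (X ^ 3 + C 0 * X ^ 2 + C (-1) * X + C 0 : ℂ[X]) = UNIT_F := by
      simp only [UNIT_F, C_0, C_neg, C_1]; ring
    rw [h4, h5]
    rw [zero_mul, add_zero]
    change (-Affine.CoordinateRing.mk W0 Y) ^ 2 - (AdjoinRoot.of W0.polynomial) UNIT_F = 0
    rw [h2, h3, sub_self])

theorem UNIT_conj_el (p q : ℂ[X]) : UNIT_conj (UNIT_el p q) = UNIT_el p (-q) := by
  rw [UNIT_el, UNIT_el, Affine.CoordinateRing.smul, Affine.CoordinateRing.smul,
    Affine.CoordinateRing.smul, mul_one, map_add, map_mul]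
  unfold UNIT_conj
  simp only [Affine.CoordinateRing.mk, AdjoinRoot.lift_mk, eval₂_C, eval₂_X]
  rw [map_neg, map_neg]
  have : (AdjoinRoot.of W0.polynomial) p = AdjoinRoot.mk W0.polynomial (C p) := rfl
  rw [this]
  have : (AdjoinRoot.of W0.polynomial) q = AdjoinRoot.mk W0.polynomial (C q) := rfl
  rw [this]
  ring

theorem UNIT_map_conj (x y : ℂ) :
    (Affine.CoordinateRing.XYIdeal W0 x (C y)).map UNIT_conj =
      Affine.CoordinateRing.XYIdeal W0 x (C (-y)) := by
  rw [Affine.CoordinateRing.XYIdeal, Affine.CoordinateRing.XYIdeal, Ideal.map_span,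
    Set.image_pair, UNIT_XClass, UNIT_YClass, UNIT_YClass, UNIT_conj_el, UNIT_conj_el, neg_zero]
  have h1 : UNIT_el (-C y) (-1) = -UNIT_el (-C (-y)) 1 := by
    unfold UNIT_el
    rw [C_neg]
    simp only [neg_neg, neg_smul, one_smul]
    ring
  rw [h1]
  apply le_antisymm
  · rw [Ideal.span_le]
    rintro w hw
    rcases hw with rfl | hw
    · exact Ideal.subset_span (Or.inl rfl)
    · rw [Set.mem_singleton_iff] at hw
      rw [hw]
      exact neg_mem (Ideal.subset_span (Or.inr rfl))
  · rw [Ideal.span_le]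
    rintro w hw
    rcases hw with rfl | hw
    · exact Ideal.subset_span (Or.inl rfl)
    · rw [Set.mem_singleton_iff] at hw
      rw [hw]
      have h2 : -UNIT_el (-C (-y)) 1 ∈ Ideal.span {UNIT_el (X - C x) 0, -UNIT_el (-C (-y)) 1} :=
        Ideal.subset_span (Or.inr rfl)
      have h3 := neg_mem h2
      rwa [neg_neg] at h3

/-- torsion and principal powers -/
theorem UNIT_torsion (x y : ℂ) (h : W0.Nonsingular x y) (n : ℕ) :
    n • (Affine.Point.some x y h : W0.Point) = 0 ↔
      ∃ g : W0.CoordinateRing, g ≠ 0 ∧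
        Affine.CoordinateRing.XYIdeal W0 x (C y) ^ n = Ideal.span {g} := by
  have h1 : n • (Affine.Point.some x y h : W0.Point) = 0 ↔
      ClassGroup.mk W0.FunctionField (Affine.CoordinateRing.XYIdeal' (W := W0) h ^ n) = 1 := by
    rw [← Affine.Point.toClass_eq_zero, map_nsmul, Affine.Point.toClass_some, map_pow]
    rfl
  rw [h1]
  apply ClassGroup.mk_eq_one_of_coe_ideal
  rw [Units.val_pow_eq_pow_val, Affine.CoordinateRing.XYIdeal'_eq, FractionalIdeal.coeIdeal_pow]

/-- an element whose norm is a power of `X - x` generates a power of the maximal ideal -/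
theorem UNIT_gen (x y : ℂ) (h : W0.Nonsingular x y) (p q : ℂ[X]) (c : ℂ) (k : ℕ) (hc : c ≠ 0)
    (hn : p ^ 2 - q ^ 2 * UNIT_F = C c * (X - C x) ^ k) (hp : p.eval x ≠ 0)
    (hM : p.eval x + q.eval x * y = 0) :
    Affine.CoordinateRing.XYIdeal W0 x (C y) ^ k = Ideal.span {UNIT_el p q} := by
  have hxy := UNIT_nonsing x y h
  have hxy' : (-y) ^ 2 = x ^ 3 - x := by rw [neg_sq]; exact hxy
  set M := Affine.CoordinateRing.XYIdeal W0 x (C y) with hMdef
  set M' := Affine.CoordinateRing.XYIdeal W0 x (C (-y)) with hMdef'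
  have hMmax : M.IsMaximal := UNIT_max x y hxy
  have hMmax' : M'.IsMaximal := UNIT_max x (-y) hxy'
  have h2p : p.eval x - q.eval x * y ≠ 0 := by
    intro h0
    apply hp
    have : 2 * p.eval x = 0 := by linear_combination hM + h0
    simpa using this
  have he : UNIT_el p q ∉ M' := by
    rw [hMdef', UNIT_mem x (-y) hxy', UNIT_ev_el]
    intro h0
    apply h2p
    linear_combination h0
  have he' : UNIT_el p (-q) ∉ M := by
    rw [hMdef, UNIT_mem x y hxy, UNIT_ev_el]
    intro h0
    apply h2p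
    rw [eval_neg] at h0
    linear_combination h0
  have hprod : (M' * M) ^ k = Ideal.span {UNIT_el p q * UNIT_el p (-q)} := by
    rw [hMdef, hMdef', UNIT_mul_conj x y h, Ideal.span_singleton_pow, UNIT_XClass_pow, UNIT_el_mul]
    have h3 : UNIT_el (p * p + q * -q * UNIT_F) (p * -q + q * p) =
        UNIT_el (C c) 0 * UNIT_el ((X - C x) ^ k) 0 := by
      rw [UNIT_el_mul]
      congr 1
      · rw [mul_zero, zero_mul, add_zero, ← hn]; ring
      · ring
    rw [h3, Ideal.span_singleton_mul_left_unit]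
    refine IsUnit.of_mul_eq_one (UNIT_el (C c⁻¹) 0) ?_
    rw [UNIT_el_mul, ← C_mul, mul_inv_cancel₀ hc]
    simp [UNIT_el]
  have hcop1 : Ideal.span {UNIT_el p (-q)} ⊔ M ^ k = ⊤ := by
    apply Ideal.sup_pow_eq_top
    by_contra hne
    have hle : M ≤ Ideal.span {UNIT_el p (-q)} ⊔ M := le_sup_right
    have heq := hMmax.eq_of_le hne hle
    apply he'
    rw [heq]
    exact (le_sup_left : _ ≤ Ideal.span {UNIT_el p (-q)} ⊔ M) (Ideal.mem_span_singleton_self _)
  have hcop2 : Ideal.span {UNIT_el p q} ⊔ M' ^ k = ⊤ := by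
    apply Ideal.sup_pow_eq_top
    by_contra hne
    have hle : M' ≤ Ideal.span {UNIT_el p q} ⊔ M' := le_sup_right
    have heq := hMmax'.eq_of_le hne hle
    apply he
    rw [heq]
    exact (le_sup_left : _ ≤ Ideal.span {UNIT_el p q} ⊔ M') (Ideal.mem_span_singleton_self _)
  apply le_antisymm
  · calc M ^ k = M ^ k * ⊤ := (Ideal.mul_top _).symm
      _ = M ^ k * (Ideal.span {UNIT_el p q} ⊔ M' ^ k) := by rw [hcop2]
      _ = M ^ k * Ideal.span {UNIT_el p q} ⊔ (M' * M) ^ k := by
          rw [Ideal.mul_sup, mul_pow, mul_comm (M ^ k) (M' ^ k)]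
      _ ≤ Ideal.span {UNIT_el p q} := by
          apply sup_le Ideal.mul_le_right
          rw [hprod, Ideal.span_singleton_le_span_singleton]
          exact dvd_mul_right _ _
  · calc Ideal.span {UNIT_el p q} = Ideal.span {UNIT_el p q} * ⊤ := (Ideal.mul_top _).symm
      _ = Ideal.span {UNIT_el p q} * (Ideal.span {UNIT_el p (-q)} ⊔ M ^ k) := by rw [hcop1]
      _ = (M' * M) ^ k ⊔ Ideal.span {UNIT_el p q} * M ^ k := by
          rw [Ideal.mul_sup, Ideal.span_singleton_mul_span_singleton, hprod]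
      _ ≤ M ^ k := by
          apply sup_le _ Ideal.mul_le_right
          rw [mul_pow]
          exact Ideal.mul_le_right

/-- the generator of a principal power of the maximal ideal -/
theorem UNIT_norm (x y : ℂ) (h : W0.Nonsingular x y) (hy : y ≠ 0) (p q : ℂ[X]) (n : ℕ)
    (hn : n ≠ 0) (hM : Affine.CoordinateRing.XYIdeal W0 x (C y) ^ n = Ideal.span {UNIT_el p q}) :
    p.eval x ≠ 0 ∧ ∃ c : ℂ, c ≠ 0 ∧ p ^ 2 - q ^ 2 * UNIT_F = C c * (X - C x) ^ n := by
  have hxy := UNIT_nonsing x y h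
  have hxy' : (-y) ^ 2 = x ^ 3 - x := by rw [neg_sq]; exact hxy
  set M := Affine.CoordinateRing.XYIdeal W0 x (C y) with hMdef
  set M' := Affine.CoordinateRing.XYIdeal W0 x (C (-y)) with hMdef'
  have hMmax : M.IsMaximal := UNIT_max x y hxy
  have hMmax' : M'.IsMaximal := UNIT_max x (-y) hxy'
  constructor
  · intro hp
    have hg : UNIT_el p q ∈ M := by
      have : UNIT_el p q ∈ M ^ n := by rw [hM]; exact Ideal.mem_span_singleton_self _
      exact Ideal.pow_le_self hn this
    rw [hMdef, UNIT_mem x y hxy, UNIT_ev_el, hp, zero_add] at hg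
    have hq : q.eval x = 0 := (mul_eq_zero.mp hg).resolve_right hy
    obtain ⟨p', rfl⟩ := dvd_iff_isRoot.mpr hp
    obtain ⟨q', rfl⟩ := dvd_iff_isRoot.mpr hq
    have h1 : UNIT_el ((X - C x) * p') ((X - C x) * q') =
        UNIT_el p' q' * Affine.CoordinateRing.XClass W0 x := by
      rw [UNIT_XClass, UNIT_el_mul]
      congr 1 <;> ring
    have h2 : M ^ n ≤ M' := by
      rw [hM, Ideal.span_singleton_le_iff_mem, h1]
      apply Ideal.mul_mem_left
      exact Ideal.subset_span (Or.inl rfl)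
    have h3 : M ≤ M' := (hMmax'.isPrime.pow_le_iff hn).mp h2
    have h4 : Affine.CoordinateRing.YClass W0 (C y) ∈ M' := h3 (Ideal.subset_span (Or.inr rfl))
    rw [hMdef', UNIT_mem x (-y) hxy', UNIT_YClass, UNIT_ev_el] at h4
    simp only [eval_neg, eval_C, eval_one, one_mul] at h4
    apply hy
    have : 2 * y = 0 := by linear_combination -h4
    simpa using this
  · have h1 : M' ^ n = Ideal.span {UNIT_el p (-q)} := by
      have := congrArg (Ideal.map UNIT_conj) hM
      rw [Ideal.map_pow, hMdef, UNIT_map_conj, Ideal.map_span, Set.image_singleton,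
        UNIT_conj_el] at this
      exact this
    have h2 : Ideal.span {UNIT_el ((X - C x) ^ n) 0} =
        Ideal.span {UNIT_el (p ^ 2 - q ^ 2 * UNIT_F) 0} := by
      have h3 : (M' * M) ^ n = Ideal.span {UNIT_el ((X - C x) ^ n) 0} := by
        rw [hMdef, hMdef', UNIT_mul_conj x y h, Ideal.span_singleton_pow, UNIT_XClass_pow]
      rw [← h3, mul_pow, h1, hM, Ideal.span_singleton_mul_span_singleton, UNIT_el_mul]
      congr 3 <;> ring
    have hdvd : ∀ a b : ℂ[X], Ideal.span {UNIT_el a 0} ≤ Ideal.span {UNIT_el b 0} → b ∣ a := by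
      intro a b hab
      rw [Ideal.span_singleton_le_span_singleton] at hab
      obtain ⟨z, hz⟩ := hab
      obtain ⟨s, t, rfl⟩ := UNIT_el_surj z
      rw [UNIT_el_mul] at hz
      have := (UNIT_el_inj hz).1
      exact ⟨s, by rw [this]; ring⟩
    have h3 : Associated (p ^ 2 - q ^ 2 * UNIT_F) ((X - C x) ^ n) :=
      associated_of_dvd_dvd (hdvd _ _ h2.le) (hdvd _ _ h2.ge)
    obtain ⟨u, hu⟩ := h3.symm
    obtain ⟨c, hc, hcu⟩ := Polynomial.isUnit_iff.mp u.isUnit
    refine ⟨c, hc.ne_zero, ?_⟩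
    rw [← hu, ← hcu, mul_comm]

end Pool.Agent.Helper63.RG
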